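import Pool.Agent.W2helper6.HN.Base

/-!
# Prescribed finite sets of ergodic equilibrium states of complex Henon maps
-/

set_option autoImplicit false

open MeasureTheory Filter Topology
open scoped ENNReal NNReal

namespace Pool.Agent.Results.MP_eeb913_an.PrescribedEquilibriumStates

open Pool.Agent.Helper179.KS Pool.Agent.Helper179.Eq Pool.Agent.Results.MP_636246_an.SinkSaddles
open Pool.Agent.Y203.HN Pool.Agent.W2helper6.HN

/-- **Prescribed finite sets of ergodic equilibrium states.** -/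
theorem result :
    -- (A) finitely many attracting or repelling fixed points
    (∀ f : ℂ × ℂ → ℂ × ℂ, IsHenonMap f → ∀ O : Finset (ℂ × ℂ), O.Nonempty →
      (∀ q ∈ O, Att f 1 q ∨ Rep f 1 q) →
        ∃ φ : ℂ × ℂ → ℝ, IsHolder φ ∧ HasCompactSupport φ ∧
          ∀ ν : Measure (ℂ × ℂ), IsEquilibriumState f φ ν ↔
            IsProbabilityMeasure ν ∧ ν (O : Set (ℂ × ℂ))ᶜ = 0) ∧
    -- (B) for every Jacobian parameter there are maps with many ergodic equilibrium states
    (∀ (N : ℕ) (a : ℂ), a ≠ 0 → ‖a‖ < 1 →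
      ∃ (P : Polynomial ℂ) (O : Finset (ℂ × ℂ)) (φ : ℂ × ℂ → ℝ), 2 ≤ P.natDegree ∧ N ≤ O.card ∧
        IsHolder φ ∧ HasCompactSupport φ ∧
        (∀ q ∈ O, IsEquilibriumState (elemMap P a) φ (Measure.dirac q)) ∧
        ∀ ν : Measure (ℂ × ℂ), IsEquilibriumState (elemMap P a) φ ν ↔
          IsProbabilityMeasure ν ∧ ν (O : Set (ℂ × ℂ))ᶜ = 0) := by
  have hD : ∀ (N : ℕ) (a : ℂ), a ≠ 0 → ‖a‖ < 1 →
      ∃ (P : Polynomial ℂ) (O : Finset (ℂ × ℂ)) (φ : ℂ × ℂ → ℝ), 2 ≤ P.natDegree ∧ N ≤ O.card ∧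
        IsHolder φ ∧ HasCompactSupport φ ∧
        (∀ q ∈ O, IsEquilibriumState (elemMap P a) φ (Measure.dirac q)) ∧
        ∀ ν : Measure (ℂ × ℂ), IsEquilibriumState (elemMap P a) φ ν ↔
          IsProbabilityMeasure ν ∧ ν (O : Set (ℂ × ℂ))ᶜ = 0 := by
    intro N a ha ha1
    classical
    obtain ⟨P, hP, hPj⟩ := exists_poly N a ha1
    set O : Finset (ℂ × ℂ) := (Finset.range (N + 2)).image (fun j : ℕ => ((j : ℂ), (j : ℂ)))
      with hO
    have hcard : O.card = N + 2 := by
      rw [hO, Finset.card_image_of_injective, Finset.card_range]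
      intro i j hij
      have h1 : ((i : ℂ), (i : ℂ)) = ((j : ℂ), (j : ℂ)) := hij
      have h2 : (i : ℂ) = (j : ℂ) := (Prod.mk.injEq _ _ _ _ ▸ h1).1
      exact_mod_cast h2
    have hne : O.Nonempty := by
      rw [← Finset.card_pos, hcard]
      omega
    obtain ⟨φ, h1, h2, h3⟩ := several (IsHenonMap.elementary P a hP ha) O hne (by
      intro q hq
      rw [hO, Finset.mem_image] at hq
      obtain ⟨j, hj, rfl⟩ := hq
      obtain ⟨e1, e2⟩ := hPj j (Finset.mem_range.1 hj)
      left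
      apply att_elemMap P a _ e1
      rw [e2, norm_zero, zero_add]
      exact ha1)
    refine ⟨P, O, φ, hP, by omega, h1, h2, ?_, h3⟩
    intro q hq
    rw [h3]
    refine ⟨inferInstance, ?_⟩
    rw [Measure.dirac_apply' _ O.finite_toSet.measurableSet.compl, Set.indicator_of_notMem]
    simpa using hq
  exact ⟨fun f hf O hO hq => several hf O hO hq, hD⟩

end Pool.Agent.Results.MP_eeb913_an.PrescribedEquilibriumStates
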