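import Pool.Agent.W2helper6.HN.Base

/-!
# Equilibrium states of complex Henon maps with an attracting or repelling cycle

Uniqueness of equilibrium states fails for Hölder weights of complex Henon maps: a freezing phase
transition at every attracting (or repelling) cycle.
-/

set_option autoImplicit false

open MeasureTheory Filter Topology
open scoped ENNReal NNReal

namespace Pool.Agent.Results.MP_eeb913_an.SinkDestroysUniqueness

open Pool.Agent.Helper179.KS Pool.Agent.Helper179.Eq Pool.Agent.Results.MP_636246_an.SinkSaddles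
open Pool.Agent.Y203.HN Pool.Agent.W2helper6.HN

/-- **Uniqueness of equilibrium states of complex Henon maps fails.** -/
theorem result :
    -- (A) the freezing transition at an attracting or repelling cycle of any Henon map
    (∀ f : ℂ × ℂ → ℂ × ℂ, IsHenonMap f → ∀ (m : ℕ) (p : ℂ × ℂ), (Att f m p ∨ Rep f m p) →
      ∃ (b : ℂ × ℂ → ℝ) (S : ℝ), 0 ≤ S ∧ pressure f (fun _ => 0) = (S : EReal) ∧
        (∀ t : ℝ, IsHolder (fun z => t * b z)) ∧ HasCompactSupport b ∧
        (∀ z, 0 ≤ b z ∧ b z ≤ 1) ∧ (∀ i : ℕ, b (f^[i] p) = 1) ∧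
        (∀ t : ℝ, 0 ≤ t → pressure f (fun z => t * b z) = ((max S t : ℝ) : EReal)) ∧
        (∀ t : ℝ, S < t → ∀ ν, IsEquilibriumState f (fun z => t * b z) ν ↔ ν = cyc f m p) ∧
        (∀ t : ℝ, 0 ≤ t → t < S → ∀ ν, IsEquilibriumState f (fun z => t * b z) ν ↔
          IsEquilibriumState f (fun _ => 0) ν) ∧
        IsEquilibriumState f (fun z => S * b z) (cyc f m p) ∧
        (∀ ν, IsEquilibriumState f (fun _ => 0) ν →
          IsEquilibriumState f (fun z => S * b z) ν) ∧
        ((∃ ν, IsInvariantProb f ν ∧ ν ≠ cyc f m p) → ∃ t : ℝ, 0 ≤ t ∧ t ≤ S ∧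
          ¬ ∃! ν, IsEquilibriumState f (fun z => t * b z) ν)) ∧
    -- (B) elementary maps with an attracting or repelling fixed point
    (∀ (P : Polynomial ℂ) (a y : ℂ), 2 ≤ P.natDegree → a ≠ 0 → P.eval y = (1 + a) * y →
      (‖P.derivative.eval y‖ + ‖a‖ < 1 ∨ ‖P.derivative.eval y‖ + 1 < ‖a‖) →
        ∃ φ : ℂ × ℂ → ℝ, IsHolder φ ∧ HasCompactSupport φ ∧
          (∀ z w, ((φ z - φ w : ℝ) : EReal) ≤ pressure (elemMap P a) (fun _ => 0)) ∧
          ¬ ∃! ν, IsEquilibriumState (elemMap P a) φ ν) ∧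
    -- (C) the conjecture fails
    ¬ (∀ f : ℂ × ℂ → ℂ × ℂ, IsHenonMap f → ∀ φ : ℂ × ℂ → ℝ, IsHolder φ →
      ∃! μ, IsEquilibriumState f φ μ) := by
  have hA : ∀ f : ℂ × ℂ → ℂ × ℂ, IsHenonMap f → ∀ (m : ℕ) (p : ℂ × ℂ), (Att f m p ∨ Rep f m p) →
      ∃ (b : ℂ × ℂ → ℝ) (S : ℝ), 0 ≤ S ∧ pressure f (fun _ => 0) = (S : EReal) ∧
        (∀ t : ℝ, IsHolder (fun z => t * b z)) ∧ HasCompactSupport b ∧
        (∀ z, 0 ≤ b z ∧ b z ≤ 1) ∧ (∀ i : ℕ, b (f^[i] p) = 1) ∧
        (∀ t : ℝ, 0 ≤ t → pressure f (fun z => t * b z) = ((max S t : ℝ) : EReal)) ∧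
        (∀ t : ℝ, S < t → ∀ ν, IsEquilibriumState f (fun z => t * b z) ν ↔ ν = cyc f m p) ∧
        (∀ t : ℝ, 0 ≤ t → t < S → ∀ ν, IsEquilibriumState f (fun z => t * b z) ν ↔
          IsEquilibriumState f (fun _ => 0) ν) ∧
        IsEquilibriumState f (fun z => S * b z) (cyc f m p) ∧
        (∀ ν, IsEquilibriumState f (fun _ => 0) ν →
          IsEquilibriumState f (fun z => S * b z) ν) ∧
        ((∃ ν, IsInvariantProb f ν ∧ ν ≠ cyc f m p) → ∃ t : ℝ, 0 ≤ t ∧ t ≤ S ∧
          ¬ ∃! ν, IsEquilibriumState f (fun z => t * b z) ν) := by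
    intro f hf m p h
    obtain ⟨K, U, H, D⟩ := exists_cycleData hf h
    obtain ⟨ρ, hρ, hb0, hbc⟩ := D.exists_bump
    obtain ⟨S, h1, h2, h3, h4, h5, h6, h7, h8⟩ := phase D hb0
    exact ⟨bump (orb f p) ρ, S, h1, h2, fun t => isHolder_bump _ hρ t, hbc,
      fun z => ⟨bump_nonneg _ _ _, bump_le_one _ hρ _⟩, fun i => bump_mem ⟨i, rfl⟩,
      h3, h4, h5, h6, h7, h8⟩
  have hB : ∀ (P : Polynomial ℂ) (a y : ℂ), 2 ≤ P.natDegree → a ≠ 0 → P.eval y = (1 + a) * y →
      (‖P.derivative.eval y‖ + ‖a‖ < 1 ∨ ‖P.derivative.eval y‖ + 1 < ‖a‖) →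
        ∃ φ : ℂ × ℂ → ℝ, IsHolder φ ∧ HasCompactSupport φ ∧
          (∀ z w, ((φ z - φ w : ℝ) : EReal) ≤ pressure (elemMap P a) (fun _ => 0)) ∧
          ¬ ∃! ν, IsEquilibriumState (elemMap P a) φ ν := by
    intro P a y hP ha hy h
    have hap : Att (elemMap P a) 1 (y, y) ∨ Rep (elemMap P a) 1 (y, y) := by
      rcases h with h | h
      · exact Or.inl (att_elemMap P a y hy h)
      · exact Or.inr (rep_elemMap P a y hy h)
    have hne : P.derivative.eval y ≠ 1 + a := by
      intro he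
      rw [he] at h
      have h1 : ‖(1 : ℂ)‖ ≤ ‖1 + a‖ + ‖a‖ := by
        calc ‖(1 : ℂ)‖ = ‖(1 + a) - a‖ := by rw [add_sub_cancel_right]
          _ ≤ _ := norm_sub_le _ _
      have h2 : ‖a‖ ≤ ‖1 + a‖ + ‖(1 : ℂ)‖ := by
        calc ‖a‖ = ‖(1 + a) - 1‖ := by rw [add_sub_cancel_left]
          _ ≤ _ := norm_sub_le _ _
      rw [norm_one] at h1 h2
      rcases h with h | h <;> linarith
    obtain ⟨y', hy'ne, hy'⟩ := exists_other_root P a y hP hy hne
    obtain ⟨b, S, hS0, hSp, hHol, hbc, hb01, _, _, _, _, _, _, hlast⟩ :=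
      hA _ (IsHenonMap.elementary P a hP ha) 1 (y, y) hap
    have hcont : Continuous (elemMap P a) := by
      unfold elemMap
      exact ((P.continuous.comp continuous_fst).sub (continuous_const.mul continuous_snd)).prodMk
        continuous_fst
    have hfix : elemMap P a (y', y') = (y', y') := by
      simp only [elemMap]
      rw [hy']
      congr 1
      ring
    have hdi : IsInvariantProb (elemMap P a) (Measure.dirac (y', y')) := by
      refine ⟨inferInstance, hcont.measurable, ?_⟩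
      rw [Measure.map_dirac' hcont.measurable, hfix]
    obtain ⟨t, ht0, htS, ht⟩ := hlast ⟨Measure.dirac (y', y'), hdi, by
      intro he
      have h1 := congrArg (fun μ : Measure (ℂ × ℂ) => μ {(y, y)}) he
      simp only [cyc, Finset.range_one, Finset.sum_singleton, Function.iterate_zero, id,
        Nat.cast_one, inv_one, one_smul] at h1
      rw [Measure.dirac_apply' _ (measurableSet_singleton _),
        Measure.dirac_apply' _ (measurableSet_singleton _)] at h1
      rw [Set.indicator_of_notMem (by simpa using hy'ne), Set.indicator_of_mem (by simp)] at h1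
      simp at h1⟩
    refine ⟨fun z => t * b z, hHol t, hbc.mul_left, ?_, ht⟩
    intro z w
    rw [hSp]
    have h1 := hb01 z
    have h2 := hb01 w
    have : t * b z - t * b w ≤ S := by nlinarith
    exact_mod_cast this
  refine ⟨hA, hB, ?_⟩
  intro hall
  have h2 : 2 ≤ (Polynomial.X ^ 2 : Polynomial ℂ).natDegree := by
    rw [Polynomial.natDegree_X_pow]
  obtain ⟨φ, hφ, _, _, hno⟩ := hB (Polynomial.X ^ 2) (1 / 4) 0 h2 (by norm_num) (by simp)
    (Or.inl (by simp; norm_num))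
  exact hno (hall _ (IsHenonMap.elementary _ _ h2 (by norm_num)) φ hφ)

end Pool.Agent.Results.MP_eeb913_an.SinkDestroysUniqueness
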